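import Pool.Agent.P8H47.FP.Stm6

set_option autoImplicit false

namespace Pool.Agent.P8H20.FQ

open Pool.Agent.P8H47.FP
open Pool.Agent.Y920.ETC (RigidPair PCD Compat)

section

variable {F : Type} [Field F] {B : Fˣ → Fˣ → ZMod 2} {M : Subgroup Fˣ} (hB : IsSymb B) (hM : IsRad B M)

theorem z2 (a : ZMod 2) : a + a = 0 := by revert a; decide

theorem z2' (a : ZMod 2) : a = 0 ∨ a = 1 := by revert a; decide

include hB

theorem B_one (x : Fˣ) : B 1 x = 0 := by
  have h := hB.left 1 1 x
  rw [mul_one] at h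
  exact (add_eq_left.1 h.symm)

theorem B_right (x a b : Fˣ) : B x (a * b) = B x a + B x b := by
  rw [hB.symm, hB.left, hB.symm a, hB.symm b]

theorem B_sq (x y : Fˣ) : B (x * x) y = 0 := by rw [hB.left, z2]

theorem B_inv (x y : Fˣ) : B x⁻¹ y = B x y := by
  have h := hB.left x⁻¹ x y
  rw [inv_mul_cancel, B_one hB] at h
  have h2 := z2 (B x y)
  have h3 : B x⁻¹ y + B x y = B x y + B x y := by rw [h2, ← h]
  exact add_right_cancel h3

theorem B_neg_self (x : Fˣ) : B x (-x) = 0 := by
  by_cases h1 : x = 1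
  · rw [h1, B_one hB]
  have hx1 : (1 : F) - x ≠ 0 := by
    intro h
    apply h1
    apply Units.ext
    rw [Units.val_one]
    exact (sub_eq_zero.1 h).symm
  have hx2 : (1 : F) - (x : F)⁻¹ ≠ 0 := by
    intro h
    apply h1
    apply Units.ext
    rw [Units.val_one]
    have h3 : (x : F)⁻¹ = 1 := (sub_eq_zero.1 h).symm
    rwa [inv_eq_one] at h3
  let u : Fˣ := Units.mk0 _ hx1
  let v : Fˣ := Units.mk0 _ hx2
  have hu : (u : F) = 1 - x := rfl
  have hv : (v : F) = 1 - (x : F)⁻¹ := rfl
  have e1 : B x u = 0 := hB.st x u (by rw [hu]; ring)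
  have e2 : B x⁻¹ v = 0 := hB.st x⁻¹ v (by rw [hv, Units.val_inv_eq_inv_val]; ring)
  rw [B_inv hB] at e2
  have e3 : -x = u * v⁻¹ := by
    apply Units.ext
    rw [Units.val_mul, Units.val_inv_eq_inv_val, hu, hv, Units.val_neg]
    have hx0 := x.ne_zero
    field_simp
    have hx3 : (x : F) - 1 ≠ 0 := by
      intro h
      apply hx1
      have : (1 : F) - x = -(x - 1) := by ring
      rw [this, h, neg_zero]
    rw [eq_div_iff hx3]
    ring
  rw [e3, B_right hB, e1, hB.symm, B_inv hB, hB.symm, e2, add_zero]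

include hM

theorem mem_sq (x : Fˣ) : x * x ∈ M := (hM _).2 fun y => B_sq hB x y

theorem B_mem {m : Fˣ} (hm : m ∈ M) (y : Fˣ) : B m y = 0 := (hM m).1 hm y

theorem B_mem' {m : Fˣ} (hm : m ∈ M) (y : Fˣ) : B y m = 0 := by rw [hB.symm]; exact B_mem hB hM hm y

end

theorem rone : S_RONE := by
  intro F _ B M hB hM hidx
  have key : ∀ a : Fˣ, a ∉ M → B a a = 1 := by
    intro a ha
    have h1 : ¬ ∀ y, B a y = 0 := fun h => ha ((hM a).2 h)
    push Not at h1
    obtain ⟨y, hy⟩ := h1
    have hyM : y ∉ M := fun h => hy (B_mem' hB hM h a)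
    have h2 : y * a ∈ M := by
      rw [Subgroup.mul_mem_iff_of_index_two hidx]
      exact ⟨fun h => absurd h hyM, fun h => absurd h ha⟩
    have h3 : B a (y * a) = 0 := B_mem' hB hM h2 a
    rw [B_right hB] at h3
    rcases z2' (B a a) with h4 | h4
    · rw [h4, add_zero] at h3
      exact absurd h3 hy
    · exact h4
  have hex : ∃ a, a ∉ M := by
    by_contra h
    push Not at h
    have : M = ⊤ := by
      rw [Subgroup.eq_top_iff']; exact h
    rw [this, Subgroup.index_top] at hidx
    norm_num at hidx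
  have hneg : (-1 : Fˣ) ∉ M := by
    obtain ⟨a, ha⟩ := hex
    intro h
    have h1 := B_neg_self hB a
    have h2 : -a = a * (-1) := by simp
    rw [h2, B_right hB, B_mem' hB hM h, add_zero, key a ha] at h1
    exact one_ne_zero h1
  refine ⟨?_, hneg, ?_⟩
  · intro x hx y hy
    have hs0 : (x : F) + y ≠ 0 := by
      intro h
      apply hneg
      have : (-1 : Fˣ) = x * y⁻¹ := by
        apply Units.ext
        rw [Units.val_mul, Units.val_inv_eq_inv_val, Units.val_neg, Units.val_one, eq_neg_of_add_eq_zero_left h,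
          neg_mul, mul_inv_cancel₀ y.ne_zero]
      rw [this]
      exact M.mul_mem hx (M.inv_mem hy)
    refine ⟨Units.mk0 _ hs0, ?_, rfl⟩
    set s : Fˣ := Units.mk0 _ hs0 with hs
    have hsv : (s : F) = x + y := rfl
    by_contra hsM
    have hsi : s⁻¹ ∉ M := fun h => hsM ((M.inv_mem_iff).1 h)
    have h1 : B (x * s⁻¹) (y * s⁻¹) = 0 := by
      apply hB.st
      rw [Units.val_mul, Units.val_mul, ← add_mul, ← hsv, Units.mul_inv]
    rw [hB.left, B_mem hB hM hx, zero_add, B_right hB, B_mem' hB hM hy, zero_add, key _ hsi] at h1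
    exact one_ne_zero h1
  · intro x
    by_cases hx : x ∈ M
    · exact Or.inl hx
    · right
      have : -x = (-1) * x := by simp
      rw [this, Subgroup.mul_mem_iff_of_index_two hidx]
      exact ⟨fun h => absurd h hneg, fun h => absurd h hx⟩

/-- four classes -/
theorem four {G : Type} [CommGroup G] {M : Subgroup G} (hsq : ∀ x : G, x * x ∈ M) (h4 : M.index = 4)
    {u v : G} (hu : u ∉ M) (hv : v ∉ M) (huv : u * v ∉ M) (x : G) :
    x ∈ M ∨ x * u ∈ M ∨ x * v ∈ M ∨ x * (u * v) ∈ M := by
  classical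
  have hfin : Finite (G ⧸ M) := Nat.finite_of_card_ne_zero (by
    have : Nat.card (G ⧸ M) = 4 := h4
    rw [this]; norm_num)
  have := Fintype.ofFinite (G ⧸ M)
  have hcard : Fintype.card (G ⧸ M) = 4 := by
    rw [← Nat.card_eq_fintype_card]; exact h4
  have hq1 : ∀ a : G, ((a : G) : G ⧸ M) = 1 ↔ a ∈ M := fun a => QuotientGroup.eq_one_iff a
  set U : G ⧸ M := (u : G ⧸ M) with hU
  set V : G ⧸ M := (v : G ⧸ M) with hV
  have hsq' : ∀ a : G, ((a : G ⧸ M)) * (a : G ⧸ M) = 1 := fun a => by
    rw [← QuotientGroup.mk_mul, hq1]; exact hsq a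
  have n1 : U ≠ 1 := fun h => hu ((hq1 u).1 h)
  have n2 : V ≠ 1 := fun h => hv ((hq1 v).1 h)
  have n3 : U * V ≠ 1 := fun h => huv ((hq1 (u * v)).1 h)
  have n4 : U ≠ V := by
    intro h
    apply n3
    rw [← h]
    exact hsq' u
  have n5 : U * V ≠ U := by
    intro h
    exact n2 (mul_eq_left.1 h)
  have n6 : U * V ≠ V := by
    intro h
    exact n1 (mul_eq_right.1 h)
  have hS : ({1, U, V, U * V} : Finset (G ⧸ M)).card = 4 := by
    rw [Finset.card_insert_of_notMem, Finset.card_insert_of_notMem, Finset.card_insert_of_notMem,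
      Finset.card_singleton]
    · rw [Finset.mem_singleton]; exact n6.symm
    · rw [Finset.mem_insert, Finset.mem_singleton, not_or]; exact ⟨n4, n5.symm⟩
    · rw [Finset.mem_insert, Finset.mem_insert, Finset.mem_singleton, not_or, not_or]
      exact ⟨n1.symm, n2.symm, n3.symm⟩
  have huniv := Finset.eq_univ_of_card _ (hS.trans hcard.symm)
  have hx : (x : G ⧸ M) ∈ ({1, U, V, U * V} : Finset (G ⧸ M)) := by rw [huniv]; exact Finset.mem_univ _
  rw [Finset.mem_insert, Finset.mem_insert, Finset.mem_insert, Finset.mem_singleton] at hx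
  rcases hx with h | h | h | h
  · left; exact (hq1 x).1 h
  · right; left
    rw [← hq1, QuotientGroup.mk_mul, h]; exact hsq' u
  · right; right; left
    rw [← hq1, QuotientGroup.mk_mul, h]; exact hsq' v
  · right; right; right
    rw [← hq1, QuotientGroup.mk_mul, h]; exact hsq' (u * v)

theorem not_top {G : Type} [CommGroup G] {M : Subgroup G} (h4 : M.index = 4) (z : G)
    (h : ∀ y : G, y ∈ M ∨ y * z ∈ M) : False := by
  classical
  have hsurj : Function.Surjective (fun b : Bool => if b then (1 : G ⧸ M) else ((z⁻¹ : G) : G ⧸ M)) := by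
    intro x
    obtain ⟨y, rfl⟩ := QuotientGroup.mk_surjective x
    rcases h y with h1 | h1
    · exact ⟨true, by simp only [if_true]; exact ((QuotientGroup.eq_one_iff y).2 h1).symm⟩
    · refine ⟨false, ?_⟩
      simp only [Bool.false_eq_true, if_false]
      rw [QuotientGroup.eq, inv_inv, mul_comm]
      exact h1
  have h1 := Nat.card_le_card_of_surjective _ hsurj
  have h2 : Nat.card (G ⧸ M) = 4 := h4
  rw [h2] at h1
  simp at h1

theorem mem_of_mul {G : Type} [CommGroup G] {M : Subgroup G} (hsq : ∀ x : G, x * x ∈ M) {x v : G}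
    (h : x * v ∈ M) : x⁻¹ * v ∈ M := by
  have e : x⁻¹ * v = x * v * (x * x)⁻¹ := by
    rw [mul_inv]
    have : x * v * (x⁻¹ * x⁻¹) = (x * x⁻¹) * (x⁻¹ * v) := by
      rw [mul_comm x⁻¹ v]
      simp only [mul_assoc, mul_comm, mul_left_comm]
    rw [this, mul_inv_cancel, one_mul]
  rw [e]
  exact M.mul_mem h (M.inv_mem (hsq x))

theorem ralt : S_RALT := by
  intro F _ B M hB hM h4 hneg
  have hsq := mem_sq hB hM
  have hself : ∀ x, B x x = 0 := by
    intro x
    have h1 := B_neg_self hB x
    have h2 : -x = x * (-1) := by simp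
    rwa [h2, B_right hB, B_mem' hB hM hneg, add_zero] at h1
  have hzero : ∀ x y, B x y = 0 → x ∉ M → y ∈ M ∨ x * y ∈ M := by
    intro x y hxy hx
    have h1 : ¬ ∀ w, B x w = 0 := fun h => hx ((hM x).2 h)
    push Not at h1
    obtain ⟨w, hw⟩ := h1
    have hwM : w ∉ M := fun h => hw (B_mem' hB hM h x)
    have hxw : x * w ∉ M := by
      intro h
      have h2 := B_mem' hB hM h x
      rw [B_right hB, hself, zero_add] at h2
      exact hw h2
    rcases four hsq h4 hx hwM hxw y with h | h | h | h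
    · exact Or.inl h
    · right; rwa [mul_comm]
    · exfalso
      have h2 := B_mem' hB hM h x
      rw [B_right hB, hxy, zero_add] at h2
      exact hw h2
    · exfalso
      have h2 := B_mem' hB hM h x
      rw [B_right hB, B_right hB, hxy, hself, zero_add, zero_add] at h2
      exact hw h2
  have hrig : RigidPair M M := by
    refine ⟨hsq, le_rfl, hneg, fun x hx => ?_⟩
    have hv0 : (1 : F) + x ≠ 0 := by
      intro h
      apply hx
      have : x = -1 := by
        apply Units.ext
        rw [Units.val_neg, Units.val_one]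
        exact eq_neg_of_add_eq_zero_right h
      rw [this]
      exact hneg
    let v : Fˣ := Units.mk0 _ hv0
    have hv : (v : F) = 1 + x := rfl
    have h1 : B (-x) v = 0 := hB.st (-x) v (by rw [Units.val_neg, hv]; ring)
    have h2 : -x = (-1) * x := by simp
    rw [h2, hB.left, B_mem hB hM hneg, zero_add] at h1
    rcases hzero x v h1 hx with h | h
    · exact Or.inl ⟨v, h, hv⟩
    · exact Or.inr ⟨x⁻¹ * v, mem_of_mul hsq h, by rw [mul_inv_cancel_left, hv]⟩
  obtain ⟨z, H', hH', hr', hP'⟩ := Pool.Agent.Y925.ET.t_WA F M M hrig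
  obtain ⟨O, hO⟩ := Pool.Agent.Y447.ET.t_WB F M H' hr' hP'
  refine ⟨O, hO.one, fun htop => ?_⟩
  have hle : O.unitGroup ⊔ M ≤ H' := by
    refine sup_le ?_ hr'.le
    intro u hu
    have h1 := (ValuationSubring.mem_unitGroup_iff O u).1 hu
    refine hO.units u ?_ ?_
    · rw [← ValuationSubring.valuation_le_one_iff]; exact h1.le
    · rw [← ValuationSubring.valuation_le_one_iff, Units.val_inv_eq_inv_val, map_inv₀, h1, inv_one]
  rw [htop] at hle
  exact not_top h4 z fun y => (hH' y).1 (hle (Subgroup.mem_top y))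

/-- an ordering from two classes -/
theorem ord_of {F : Type} [Field F] {M H : Subgroup Fˣ} (hsq : ∀ x : Fˣ, x * x ∈ M)
    (hneg : (-1 : Fˣ) ∉ M) (hH : ∀ x : Fˣ, x ∈ H ↔ x ∈ M ∨ -x ∈ M) (hH2 : ∀ x y, x ∉ H → y ∉ H → x * y ∈ H)
    (hrig : ∀ x : Fˣ, x ∉ H → (∃ t ∈ M, (t : F) = 1 + x) ∨ (∃ t ∈ M, ((x * t : Fˣ) : F) = 1 + x))
    (hadd : ∀ x ∈ M, ∀ y ∈ M, ∃ z ∈ M, (z : F) = x + y) {a : Fˣ} (ha : a ∉ H) (P : Subgroup Fˣ)
    (hP : ∀ x, x ∈ P ↔ x ∈ M ∨ a⁻¹ * x ∈ M) : IsOrd P := by
  have hML : ∀ x ∈ M, x ∈ H := fun x hx => (hH x).2 (Or.inl hx)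
  have hout : ∀ x, a⁻¹ * x ∈ M → x ∉ H := by
    intro x hx hxH
    apply ha
    have : a = x * (a⁻¹ * x)⁻¹ := by rw [mul_inv, inv_inv, mul_comm a, ← mul_assoc, mul_inv_cancel, one_mul]
    rw [this]
    exact H.mul_mem hxH (H.inv_mem (hML _ hx))
  have mix : ∀ x ∈ M, ∀ y, a⁻¹ * y ∈ M → ∃ z ∈ P, (z : F) = x + y := by
    intro x hx y hy
    have hyx : a⁻¹ * (y * x⁻¹) ∈ M := by rw [← mul_assoc]; exact M.mul_mem hy (M.inv_mem hx)
    have hx0 := x.ne_zero
    rcases hrig (y * x⁻¹) (hout _ hyx) with ⟨t, ht, e⟩ | ⟨t, ht, e⟩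
    · refine ⟨x * t, (hP _).2 (Or.inl (M.mul_mem hx ht)), ?_⟩
      rw [Units.val_mul, e, Units.val_mul, Units.val_inv_eq_inv_val]
      field_simp
    · refine ⟨y * t, (hP _).2 (Or.inr (by rw [← mul_assoc]; exact M.mul_mem hy ht)), ?_⟩
      have h2 : ((y * t : Fˣ) : F) = x * ((y * x⁻¹ * t : Fˣ) : F) := by
        push_cast
        field_simp
      rw [h2, e, Units.val_mul, Units.val_inv_eq_inv_val]
      field_simp
  refine ⟨?_, ?_, ?_⟩
  · intro x hx y hy
    rcases (hP x).1 hx with hx | hx <;> rcases (hP y).1 hy with hy | hy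
    · obtain ⟨z, hz, e⟩ := hadd x hx y hy
      exact ⟨z, (hP z).2 (Or.inl hz), e⟩
    · exact mix x hx y hy
    · obtain ⟨z, hz, e⟩ := mix y hy x hx
      exact ⟨z, hz, by rw [e, add_comm]⟩
    · obtain ⟨z, hz, e⟩ := hadd _ hx _ hy
      refine ⟨a * z, (hP _).2 (Or.inr (by rw [inv_mul_cancel_left]; exact hz)), ?_⟩
      rw [Units.val_mul, e, Units.val_mul, Units.val_mul, Units.val_inv_eq_inv_val]
      have := a.ne_zero
      field_simp
  · intro h
    rcases (hP _).1 h with h | h
    · exact hneg h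
    · exact hout _ h ((hH _).2 (Or.inr (by rw [neg_neg]; exact M.one_mem)))
  · intro x
    by_cases hx : x ∈ H
    · rcases (hH x).1 hx with h | h
      · exact Or.inl ((hP x).2 (Or.inl h))
      · exact Or.inr ((hP _).2 (Or.inl h))
    · have ha' : a⁻¹ ∉ H := fun h => ha ((H.inv_mem_iff).1 h)
      rcases (hH _).1 (hH2 a⁻¹ x ha' hx) with h | h
      · exact Or.inl ((hP x).2 (Or.inr h))
      · refine Or.inr ((hP _).2 (Or.inr ?_))
        rwa [mul_neg]

theorem rnal : S_RNAL := by
  intro hPC F _ B M hB hM h4 hneg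
  have hsq := mem_sq hB hM
  have hself : ∀ x, B x x = B x (-1) := by
    intro x
    have h1 := B_neg_self hB x
    have h2 : -x = x * (-1) := by simp
    rw [h2, B_right hB] at h1
    have h3 : B x x + B x (-1) = B x (-1) + B x (-1) := by rw [h1, z2]
    exact add_right_cancel h3
  obtain ⟨a, ha⟩ : ∃ a, B (-1) a ≠ 0 := by
    by_contra h
    push Not at h
    exact hneg ((hM _).2 h)
  have ha1 : B a (-1) = 1 := by
    rw [hB.symm]
    exact (z2' _).resolve_left ha
  have haM : a ∉ M := fun h => by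
    rw [B_mem hB hM h] at ha1
    exact zero_ne_one ha1
  have hcc : B (-1) (-1) = 0 := by
    by_contra hc
    have hc1 : B (-1) (-1) = 1 := (z2' _).resolve_left hc
    -- `b = -a` or so: a class orthogonal to `-1`
    obtain ⟨b, hb, hbM⟩ : ∃ b, B b (-1) = 0 ∧ b ∉ M := by
      by_contra hcon
      push Not at hcon
      exact not_top h4 (-1) fun y => by
        rcases z2' (B y (-1)) with h | h
        · exact Or.inl (hcon y h)
        · right
          apply hcon
          rw [hB.left, h, hc1]
          decide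
    have hbb : B b b = 0 := by rw [hself, hb]
    have hbc : b * (-1) ∉ M := by
      intro h
      have h2 := B_mem hB hM h (-1)
      rw [hB.left, hb, hc1, zero_add] at h2
      exact one_ne_zero h2
    apply hbM
    rw [hM]
    intro y
    rcases four hsq h4 hbM hneg hbc y with h | h | h | h
    · exact B_mem' hB hM h b
    · have h2 := B_mem' hB hM h b
      rwa [B_right hB, hbb, add_zero] at h2
    · have h2 := B_mem' hB hM h b
      rwa [B_right hB, hb, add_zero] at h2
    · have h2 := B_mem' hB hM h b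
      rwa [B_right hB, B_right hB, hb, hbb, add_zero, add_zero] at h2
  let H : Subgroup Fˣ :=
    { carrier := {x | B x (-1) = 0}
      mul_mem' := by
        intro x y hx hy
        change B (x * y) (-1) = 0
        rw [hB.left, show B x (-1) = 0 from hx, show B y (-1) = 0 from hy, add_zero]
      one_mem' := B_one hB _
      inv_mem' := by
        intro x hx
        change B x⁻¹ (-1) = 0
        rw [B_inv hB]; exact hx }
  have hHm : ∀ x, x ∈ H ↔ B x (-1) = 0 := fun x => Iff.rfl
  have hac : a * (-1) ∉ M := by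
    intro h
    have h2 := B_mem hB hM h (-1)
    rw [hB.left, ha1, hcc, add_zero] at h2
    exact one_ne_zero h2
  have hH : ∀ x : Fˣ, x ∈ H ↔ x ∈ M ∨ -x ∈ M := by
    intro x
    rw [hHm]
    constructor
    · intro hx
      rcases four hsq h4 haM hneg hac x with h | h | h | h
      · exact Or.inl h
      · exfalso
        have h2 := B_mem hB hM h (-1)
        rw [hB.left, hx, ha1, zero_add] at h2
        exact one_ne_zero h2
      · right
        have : -x = x * (-1) := by simp
        rwa [this]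
      · exfalso
        have h2 := B_mem hB hM h (-1)
        rw [hB.left, hB.left, hx, ha1, hcc, zero_add, add_zero] at h2
        exact one_ne_zero h2
    · rintro (h | h)
      · exact B_mem hB hM h _
      · have h2 := B_mem hB hM h (-1)
        have : -x = x * (-1) := by simp
        rwa [this, hB.left, hcc, add_zero] at h2
  have hH2 : ∀ x y, x ∉ H → y ∉ H → x * y ∈ H := by
    intro x y hx hy
    rw [hHm] at hx hy ⊢
    rw [hB.left, (z2' _).resolve_left hx, (z2' _).resolve_left hy]
    decide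
  have haH : a ∉ H := by
    rw [hHm, ha1]
    exact one_ne_zero
  have hrigid : ∀ x : Fˣ, x ∉ H → (∃ t ∈ M, (t : F) = 1 + x) ∨ (∃ t ∈ M, ((x * t : Fˣ) : F) = 1 + x) := by
    intro x hx
    have hv0 : (1 : F) + x ≠ 0 := by
      intro h
      apply hx
      have : x = -1 := by
        apply Units.ext
        rw [Units.val_neg, Units.val_one]
        exact eq_neg_of_add_eq_zero_right h
      rw [this, hHm]
      exact hcc
    let v : Fˣ := Units.mk0 _ hv0
    have hv : (v : F) = 1 + x := rfl
    have h1 : B (-x) v = 0 := hB.st (-x) v (by rw [Units.val_neg, hv]; ring)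
    have hxc : B x (-1) = 1 := (z2' _).resolve_left hx
    have hnx : B (-x) (-1) = 1 := by
      have : -x = x * (-1) := by simp
      rw [this, hB.left, hxc, hcc, add_zero]
    have hxM : x ∉ M := fun h => hx ((hH x).2 (Or.inl h))
    have hxcM : x * (-1) ∉ M := by
      intro h
      have h2 := B_mem hB hM h (-1)
      rw [hB.left, hxc, hcc, add_zero] at h2
      exact one_ne_zero h2
    have hnxx : B (-x) x = 0 := by rw [hB.symm]; exact B_neg_self hB x
    rcases four hsq h4 hxM hneg hxcM v with h | h | h | h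
    · exact Or.inl ⟨v, h, hv⟩
    · rw [mul_comm] at h
      exact Or.inr ⟨x⁻¹ * v, mem_of_mul hsq h, by rw [mul_inv_cancel_left, hv]⟩
    · exfalso
      have h2 := B_mem' hB hM h (-x)
      rw [B_right hB, h1, hnx, zero_add] at h2
      exact one_ne_zero h2
    · exfalso
      have h2 := B_mem' hB hM h (-x)
      rw [B_right hB, B_right hB, h1, hnx, hnxx, zero_add, zero_add] at h2
      exact one_ne_zero h2
  have hone : ∀ x z : Fˣ, x ∈ M → (z : F) = 1 + x → z ∈ H := by
    intro x z hx hz
    have h1 : B (-x) z = 0 := hB.st (-x) z (by rw [Units.val_neg, hz]; ring)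
    have : -x = x * (-1) := by simp
    rw [this, hB.left, B_mem hB hM hx, zero_add, hB.symm] at h1
    exact h1
  by_cases hE : ∃ x₀ ∈ M, ∃ y₀ ∈ M, (1 : F) + x₀ + y₀ = 0
  · right
    have hr : RigidPair M H := ⟨hsq, fun x hx => (hH x).2 (Or.inl hx), by rw [hHm]; exact hcc, hrigid⟩
    obtain ⟨O, hO⟩ := Pool.Agent.Y447.ET.t_WB F M H hr (hPC F M H hsq h4 hneg hH hr hone hE)
    refine ⟨O, hO.one, fun htop => ?_⟩
    have hle : O.unitGroup ⊔ M ≤ H := by
      refine sup_le ?_ hr.le
      intro u hu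
      have h1 := (ValuationSubring.mem_unitGroup_iff O u).1 hu
      refine hO.units u ?_ ?_
      · rw [← ValuationSubring.valuation_le_one_iff]; exact h1.le
      · rw [← ValuationSubring.valuation_le_one_iff, Units.val_inv_eq_inv_val, map_inv₀, h1, inv_one]
    rw [htop] at hle
    exact haH (hle (Subgroup.mem_top a))
  · left
    have hadd1 : ∀ x ∈ M, ∃ z ∈ M, (z : F) = 1 + x := by
      intro x hx
      have hv0 : (1 : F) + x ≠ 0 := by
        intro h
        apply hneg
        have : x = -1 := by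
          apply Units.ext
          rw [Units.val_neg, Units.val_one]
          exact eq_neg_of_add_eq_zero_right h
        rwa [← this]
      let z : Fˣ := Units.mk0 _ hv0
      have hz : (z : F) = 1 + x := rfl
      rcases (hH z).1 (hone x z hx hz) with h | h
      · exact ⟨z, h, hz⟩
      · exfalso
        apply hE
        exact ⟨x, hx, -z, h, by rw [Units.val_neg, hz]; ring⟩
    have hadd : ∀ x ∈ M, ∀ y ∈ M, ∃ z ∈ M, (z : F) = x + y := by
      intro x hx y hy
      obtain ⟨z, hz, e⟩ := hadd1 (x⁻¹ * y) (M.mul_mem (M.inv_mem hx) hy)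
      refine ⟨x * z, M.mul_mem hx hz, ?_⟩
      rw [Units.val_mul, e, Units.val_mul, Units.val_inv_eq_inv_val]
      have := x.ne_zero
      field_simp
    let P : Fˣ → Subgroup Fˣ := fun b =>
      { carrier := {x | x ∈ M ∨ b⁻¹ * x ∈ M}
        mul_mem' := by
          intro x y hx hy
          rcases hx with hx | hx <;> rcases hy with hy | hy
          · exact Or.inl (M.mul_mem hx hy)
          · right
            have : b⁻¹ * (x * y) = x * (b⁻¹ * y) := mul_left_comm _ _ _
            rw [this]; exact M.mul_mem hx hy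
          · right
            rw [← mul_assoc]; exact M.mul_mem hx hy
          · left
            have : x * y = (b⁻¹ * x) * (b⁻¹ * y) * (b * b) := by
              have e : (b⁻¹ * x) * (b⁻¹ * y) * (b * b) = (x * y) * ((b⁻¹ * b) * (b⁻¹ * b)) := by
                simp only [mul_assoc, mul_comm, mul_left_comm]
              rw [e, inv_mul_cancel, one_mul, mul_one]
            rw [this]; exact M.mul_mem (M.mul_mem hx hy) (hsq b)
        one_mem' := Or.inl M.one_mem
        inv_mem' := by
          intro x hx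
          rcases hx with hx | hx
          · exact Or.inl (M.inv_mem hx)
          · right
            have : b⁻¹ * x⁻¹ = (b⁻¹ * x) * (x * x)⁻¹ := by
              rw [mul_inv, mul_assoc, mul_inv_cancel_left]
            rw [this]; exact M.mul_mem hx (M.inv_mem (hsq x)) }
    have hPm : ∀ b x, x ∈ P b ↔ x ∈ M ∨ b⁻¹ * x ∈ M := fun b x => Iff.rfl
    have hnaH : -a ∉ H := by
      rw [hHm]
      have : -a = a * (-1) := by simp
      rw [this, hB.left, ha1, hcc, add_zero]
      exact one_ne_zero
    refine ⟨P a, P (-a), ord_of hsq hneg hH hH2 hrigid hadd haH _ (hPm a),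
      ord_of hsq hneg hH hH2 hrigid hadd hnaH _ (hPm (-a)), ?_⟩
    rintro x ⟨h1, h2⟩
    rcases (hPm _ _).1 h1 with h1 | h1
    · exact h1
    rcases (hPm _ _).1 h2 with h2 | h2
    · exact h2
    exfalso
    apply hneg
    have e : (-1 : Fˣ) = ((-a)⁻¹ * x) * (a⁻¹ * x)⁻¹ := by
      apply Units.ext
      have := a.ne_zero
      have := x.ne_zero
      push_cast
      field_simp
    rw [e]
    exact M.mul_mem h2 (M.inv_mem h1)

end Pool.Agent.P8H20.FQ
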