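import Pool.Agent.P8H47.FP.Stm6

set_option autoImplicit false

namespace Pool.Agent.P8H20.FQ

open Pool.Agent.P8H47.FP
open Pool.Agent.Results.MP_600e55_nt.SymbolPartitions (powers)

/-- a functional that vanishes on the common kernel of a finite family closed under addition is in it -/
theorem rep {D : Type} [CommGroup D] {ι : Type} (f : ι → D → ZMod 2) (hf : ∀ i a b, f i (a * b) = f i a + f i b)
    (hfin : (Set.range f).Finite) (h0 : ∃ i, f i = 0) (hadd : ∀ i j, ∃ k, f k = f i + f j)
    (φ : D → ZMod 2) (hφ : ∀ a b, φ (a * b) = φ a + φ b) (hker : ∀ t, (∀ i, f i t = 0) → φ t = 0) :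
    ∃ i, f i = φ := by
  classical
  have two : ∀ a : ZMod 2, a = 0 ∨ a = 1 := by decide
  let L : (D → ZMod 2) → ((D →₀ ZMod 2) →ₗ[ZMod 2] ZMod 2) := fun g => Finsupp.linearCombination (ZMod 2) g
  have hL : ∀ g x, L g x = x.sum fun i a => a * g i := by
    intro g x
    change Finsupp.linearCombination (ZMod 2) g x = _
    rw [Finsupp.linearCombination_apply]
    rfl
  have hLs : ∀ g t, L g (Finsupp.single t 1) = g t := by
    intro g t
    rw [hL, Finsupp.sum_single_index (by rw [zero_mul]), one_mul]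
  have hLadd : ∀ g g', L (g + g') = L g + L g' := by
    intro g g'
    apply LinearMap.ext
    intro x
    rw [LinearMap.add_apply, hL, hL, hL, ← Finsupp.sum_add]
    refine Finsupp.sum_congr fun i _ => ?_
    rw [Pi.add_apply, mul_add]
  have hL0 : L 0 = 0 := by
    apply LinearMap.ext
    intro x
    rw [hL, LinearMap.zero_apply]
    simp
  -- the product over the support
  have hT : ∀ g : D → ZMod 2, (∀ a b, g (a * b) = g a + g b) → ∀ x : D →₀ ZMod 2, L g x = g (∏ t ∈ x.support, t) := by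
    intro g hg x
    have g1 : g 1 = 0 := by
      have := hg 1 1
      rw [mul_one] at this
      exact add_eq_left.1 this.symm
    rw [hL, Finsupp.sum]
    have h1 : ∀ s : Finset D, g (∏ t ∈ s, t) = ∑ t ∈ s, g t := by
      intro s
      induction s using Finset.induction_on with
      | empty => rw [Finset.prod_empty, Finset.sum_empty, g1]
      | insert a s ha ih => rw [Finset.prod_insert ha, Finset.sum_insert ha, hg, ih]
    rw [h1]
    refine Finset.sum_congr rfl fun t ht => ?_
    rw [(two (x t)).resolve_left (Finsupp.mem_support_iff.1 ht), one_mul]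
  haveI : Finite (Set.range f) := hfin
  have hmem : L φ ∈ Submodule.span (ZMod 2) (Set.range fun i : Set.range f => L i.1) := by
    apply mem_span_of_iInf_ker_le_ker
    intro x hx
    rw [LinearMap.mem_ker, hT φ hφ]
    apply hker
    intro i
    rw [← hT (f i) (hf i)]
    have h1 := (Submodule.mem_iInf _).1 hx ⟨f i, ⟨i, rfl⟩⟩
    exact LinearMap.mem_ker.1 h1
  have hspan : ∀ y ∈ Submodule.span (ZMod 2) (Set.range fun i : Set.range f => L i.1), ∃ i, y = L (f i) := by
    intro y hy
    induction hy using Submodule.span_induction with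
    | mem y hy =>
      obtain ⟨⟨_, i, rfl⟩, rfl⟩ := hy
      exact ⟨i, rfl⟩
    | zero =>
      obtain ⟨i, hi⟩ := h0
      exact ⟨i, by rw [hi, hL0]⟩
    | add y z _ _ hy hz =>
      obtain ⟨i, rfl⟩ := hy
      obtain ⟨j, rfl⟩ := hz
      obtain ⟨k, hk⟩ := hadd i j
      exact ⟨k, by rw [hk, hLadd]⟩
    | smul a y _ hy =>
      rcases two a with rfl | rfl
      · obtain ⟨i, hi⟩ := h0
        exact ⟨i, by rw [hi, hL0, zero_smul]⟩
      · rw [one_smul]; exact hy
  obtain ⟨i, hi⟩ := hspan _ hmem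
  refine ⟨i, ?_⟩
  funext t
  rw [← hLs (f i) t, ← hLs φ t, hi]

theorem sym : S_SYM := by
  intro F _ hidx P D hD h1 h2 ⟨s, hs, t, ht, hst⟩
  classical
  have two : ∀ a : ZMod 2, a = 0 ∨ a = 1 := by decide
  have tw : ∀ a : ZMod 2, a + a = 0 := by decide
  letI : Module (ZMod 2) P.Q := AddCommGroup.zmodModule (n := 2) (fun x => by rw [two_nsmul]; exact P.two x)
  obtain ⟨lam, hlam⟩ : ∃ lam : Module.Dual (ZMod 2) P.Q, lam (P.q s t) ≠ 0 := by
    by_contra h
    push Not at h
    exact hst ((Module.forall_dual_apply_eq_zero_iff (ZMod 2) _).1 h)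
  let g : Fˣ → Fˣ → ZMod 2 := fun x y => lam (P.q x y)
  have gl : ∀ a b x, g (a * b) x = g a x + g b x := fun a b x => by
    change lam (P.q (a * b) x) = _
    rw [P.left, map_add]
  have gs : ∀ a b, g a b = g b a := fun a b => by
    change lam (P.q a b) = lam (P.q b a)
    rw [P.symm]
  have gr : ∀ x a b, g x (a * b) = g x a + g x b := fun x a b => by rw [gs, gl, gs a, gs b]
  have g1 : ∀ x, g 1 x = 0 := fun x => by
    have := gl 1 1 x
    rw [mul_one] at this
    exact add_eq_left.1 this.symm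
  have gsq : ∀ a x, g (a * a) x = 0 := fun a x => by rw [gl, tw]
  have ginv : ∀ a x, g a⁻¹ x = g a x := fun a x => by
    have h := gl a⁻¹ a x
    rw [inv_mul_cancel, g1] at h
    have h3 : g a⁻¹ x + g a x = g a x + g a x := by rw [tw, ← h]
    exact add_right_cancel h3
  -- vanishing on the part of the radical in D
  have hvan : ∀ m ∈ D, (∀ t' ∈ D, g m t' = 0) → ∀ x, g x m = 0 := by
    intro m hm hmt x
    obtain ⟨d, hd, e⟩ := h1 m hm x
    change lam (P.q x m) = 0
    rw [e]
    change g d m = 0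
    rw [gs]
    exact hmt d hd
  -- representation
  have hrep : ∀ x : Fˣ, ∃ d ∈ D, ∀ t' ∈ D, g x t' = g d t' := by
    intro x
    obtain ⟨d, hd⟩ := rep (D := D) (ι := D) (fun d t' => g d.1 t'.1) (fun i a b => gr _ _ _) (by
        have hfin : Finite (Fˣ ⧸ powers F 2) := Nat.finite_of_card_ne_zero hidx
        apply Set.Finite.subset (Set.finite_range
          (fun c : Fˣ ⧸ powers F 2 => fun t' : D => g (Quotient.out c) t'.1))
        rintro _ ⟨d, rfl⟩
        refine ⟨((d.1 : Fˣ) : Fˣ ⧸ powers F 2), ?_⟩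
        funext t'
        have h3 : (Quotient.out ((d.1 : Fˣ) : Fˣ ⧸ powers F 2))⁻¹ * d.1 ∈ powers F 2 := by
          rw [← QuotientGroup.eq]
          exact QuotientGroup.out_eq' _
        obtain ⟨c, hc⟩ := h3
        have h4 : d.1 = Quotient.out ((d.1 : Fˣ) : Fˣ ⧸ powers F 2) * (c * c) := by
          rw [← pow_two]
          change c ^ 2 = _ at hc
          rw [hc, mul_inv_cancel_left]
        change g (Quotient.out ((d.1 : Fˣ) : Fˣ ⧸ powers F 2)) t'.1 = g d.1 t'.1
        conv_rhs => rw [h4, gl, gsq, add_zero])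
      ⟨1, by funext t'; exact g1 _⟩ (fun i j => ⟨i * j, by funext t'; exact gl _ _ _⟩)
      (fun t' => g x t'.1) (fun a b => gr _ _ _) (fun t' h => by
        apply hvan t'.1 t'.2
        intro d hd
        rw [gs]
        exact h ⟨d, hd⟩)
    exact ⟨d.1, d.2, fun t' ht' => (congrFun hd ⟨t', ht'⟩).symm⟩
  choose δ hδD hδ using hrep
  let M : Subgroup Fˣ :=
    { carrier := {x | ∀ t' ∈ D, g x t' = 0}
      mul_mem' := by
        intro a b ha hb t' ht'
        rw [gl, ha t' ht', hb t' ht', add_zero]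
      one_mem' := fun t' _ => g1 t'
      inv_mem' := by
        intro a ha t' ht'
        rw [ginv]; exact ha t' ht' }
  have hMm : ∀ x, x ∈ M ↔ ∀ t' ∈ D, g x t' = 0 := fun x => Iff.rfl
  have hδM : ∀ x, x * (δ x)⁻¹ ∈ M := by
    intro x
    rw [hMm]
    intro t' ht'
    rw [gl, ginv, ← hδ x t' ht', tw]
  have hδM' : ∀ x, x⁻¹ * δ x ∈ M := by
    intro x
    rw [hMm]
    intro t' ht'
    rw [gl, ginv, ← hδ x t' ht', tw]
  let B : Fˣ → Fˣ → ZMod 2 := fun x y => g x (δ y)
  have hB : ∀ x y, B x y = g x (δ y) := fun x y => rfl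
  have hB2 : ∀ x y, B x y = g (δ x) (δ y) := fun x y => hδ x _ (hδD y)
  have hBD : ∀ x, ∀ t' ∈ D, B x t' = g x t' := by
    intro x t' ht'
    have h3 : δ t' = t' * (t'⁻¹ * δ t') := by rw [mul_inv_cancel_left]
    have h4 : t'⁻¹ * δ t' ∈ D := D.mul_mem (D.inv_mem ht') (hδD t')
    rw [hB, h3, gr, hvan _ h4 ((hMm _).1 (hδM' t')), add_zero]
  refine ⟨B, M, ⟨?_, ?_, ?_⟩, ?_, ?_, ⟨s, t, ?_⟩⟩
  · intro a b x
    rw [hB, hB, hB, gl]
  · intro a b
    rw [hB2, hB2, gs]
  · intro X Y hXY
    rw [hB2]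
    have hq : P.q X Y = 0 := by
      rw [P.norm]
      refine ⟨1, 1, ?_⟩
      linear_combination hXY
    set m := X * (δ X)⁻¹ with hm
    set m' := Y * (δ Y)⁻¹ with hm'
    have hmM : m ∈ M := hδM X
    have hm'M : m' ∈ M := hδM Y
    obtain ⟨d'', hd'', e⟩ := h2 m m' ⟨X, Y, hXY, by
      rw [hm, mul_inv, inv_inv, mul_comm X⁻¹, mul_assoc, inv_mul_cancel, mul_one]; exact hδD X, by
      rw [hm', mul_inv, inv_inv, mul_comm Y⁻¹, mul_assoc, inv_mul_cancel, mul_one]; exact hδD Y⟩
    have h5 : g m m' = 0 := by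
      have h6 : g m (m' * d'') = 0 := by
        change lam (P.q m (m' * d'')) = 0
        rw [e, map_zero]
      rw [gr, (hMm m).1 hmM d'' hd'', add_zero] at h6
      exact h6
    have h7 : g X Y = 0 := by
      change lam (P.q X Y) = 0
      rw [hq, map_zero]
    have eX : X = δ X * m := by rw [hm, mul_comm X, mul_inv_cancel_left]
    have eY : Y = δ Y * m' := by rw [hm', mul_comm Y, mul_inv_cancel_left]
    have h8 : g (δ X * m) (δ Y * m') = 0 := by rw [← eX, ← eY]; exact h7
    rw [gl (δ X) m, gr (δ X) (δ Y) m', gr m (δ Y) m', h5, gs (δ X) m', (hMm m').1 hm'M _ (hδD X), (hMm m).1 hmM _ (hδD Y)] at h8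
    simpa using h8
  · intro x
    constructor
    · intro hx y
      exact (hMm x).1 hx _ (hδD y)
    · intro hx
      rw [hMm]
      intro t' ht'
      rw [← hBD x t' ht']
      exact hx t'
  · rw [Subgroup.eq_top_iff']
    intro x
    have : x = (x * (δ x)⁻¹) * δ x := by rw [inv_mul_cancel_right]
    rw [this]
    exact (M ⊔ D).mul_mem (Subgroup.mem_sup_left (hδM x)) (Subgroup.mem_sup_right (hδD x))
  · rw [hBD s t ht]
    exact hlam

end Pool.Agent.P8H20.FQ
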